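import Pool.Agent.Zk51.KT.Back
import Pool.Agent.Zk51.KT.Nil
import Pool.Agent.N64.AF.P1

/-!
# Kimura finite objects are closed under direct sums, tensor products and duals
-/

set_option autoImplicit false
set_option linter.unusedSectionVars false
set_option backward.isDefEq.respectTransparency false
set_option backward.defeqAttrib.useBackward true

open CategoryTheory Limits MonoidalCategory Module
open Pool.Agent.Y112.SR Pool.Agent.Y112.KD Pool.Agent.R905 Pool.Agent.N64.AF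
open Pool.Agent.Zk51.KT
open Pool.Agent.TH829.Kim (InRad Killed isNilpotent_of_inRad)

namespace Pool.Agent.Zk50.KF

universe v u w

/-- `A` is a direct summand of `T`. -/
def IsSummand {C : Type u} [Category.{v} C] (A T : C) : Prop :=
  ∃ (i : A ⟶ T) (r : T ⟶ A), i ≫ r = 𝟙 A

/-- `T` is the direct sum of `A` and `B`. -/
def IsSumOf {C : Type u} [Category.{v} C] [Preadditive C] (T A B : C) : Prop :=
  ∃ (i : A ⟶ T) (r : T ⟶ A) (i' : B ⟶ T) (r' : T ⟶ B),
    i ≫ r = 𝟙 A ∧ i' ≫ r' = 𝟙 B ∧ r ≫ i + r' ≫ i' = 𝟙 T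

section

variable {C : Type u} [Category.{v} C] [Preadditive C] [MonoidalCategory C]
  [MonoidalPreadditive C] [SymmetricCategory C] [RightRigidCategory C]
  [Linear ℚ C] [MonoidalLinear ℚ C] [IsIdempotentComplete C]
  {K : Type w} [Field K] [Algebra ℚ K] {R : SuperRealisation C K}

omit [MonoidalPreadditive C] [RightRigidCategory C] [MonoidalLinear ℚ C]
  [IsIdempotentComplete C] in
/-- In a direct sum the mixed composites vanish. -/
lemma mixed {T A B : C} {i : A ⟶ T} {r : T ⟶ A} {i' : B ⟶ T} {r' : T ⟶ B}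
    (h1 : i ≫ r = 𝟙 A) (h2 : i' ≫ r' = 𝟙 B) (h3 : r ≫ i + r' ≫ i' = 𝟙 T) :
    i ≫ r' = 0 ∧ i' ≫ r = 0 := by
  have e1 : i ≫ (r ≫ i + r' ≫ i') ≫ r' = i ≫ r' := by rw [h3, Category.id_comp]
  have e2 : i' ≫ (r ≫ i + r' ≫ i') ≫ r = i' ≫ r := by rw [h3, Category.id_comp]
  rw [Preadditive.add_comp, Preadditive.comp_add] at e1 e2
  simp only [Category.assoc] at e1 e2
  rw [reassoc_of% h1, h2, Category.comp_id] at e1
  rw [h1, reassoc_of% h2, Category.comp_id] at e2
  exact ⟨by simpa using e1, by simpa using e2⟩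

/-- Nilpotence of the endomorphisms in the radical of the trace form of a Kimura finite object. -/
lemma nil_of_inRad (R : SuperRealisation C K) (hU : UnitQ C) {M : C} (h : IsKimuraFinite M)
    {f : End M} (hr : InRad (trq hU M) f) : IsNilpotent f := by
  obtain ⟨E, O, i, r, i', r', h1, h3, h5, ⟨n, hn⟩, m, hm⟩ := (isKimuraFinite_iff M).1 h
  have h6 : 1 - en (r ≫ i) = en (r' ≫ i') := by
    have h7 : (1 : End M) = en (r ≫ i) + en (r' ≫ i') := h5.symm
    rw [h7]
    exact add_sub_cancel_left _ _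
  have hk1 := killed hU (η := (-1 : ℚ)) (by norm_num) i r n (asym_mono (by norm_num) E hn)
    (en (r ≫ i)) rfl
  have hk2 := killed hU (η := (1 : ℚ)) (by norm_num) i' r' m (asym_mono (by norm_num) O hm)
    (en (r' ≫ i')) rfl
  rw [← h6] at hk2
  refine isNilpotent_of_inRad (tr := trq hU M) ?_ ?_ hk1 hk2 hr
  · intro a b
    rw [End.mul_def, End.mul_def]
    exact trq_comm' R hU _ _
  · rw [End.mul_def]
    change (r ≫ i) ≫ r ≫ i = r ≫ i
    rw [Category.assoc, reassoc_of% h1]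

omit [RightRigidCategory C] in
/-- An object with trivial identity is Kimura finite. -/
lemma kimura_of_zero {M : C} (h : 𝟙 M = 0) : IsKimuraFinite M := by
  have h1 : ∀ (η : ℚ), asym η M 1 = 0 := by
    intro η
    rw [asym_one]
    change 𝟙 (𝟙_ C ⊗ M) = 0
    rw [← MonoidalCategory.whiskerLeft_id, h, MonoidalPreadditive.whiskerLeft_zero]
  refine (isKimuraFinite_iff M).2 ⟨M, M, 𝟙 M, 𝟙 M, 𝟙 M, 𝟙 M, by simp, by simp, ?_, ⟨1, h1 _⟩,
    1, h1 _⟩
  rw [h]
  simp

/-- Kimura finiteness from the nilpotence of the homologically trivial endomorphisms. -/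
lemma kimura_of_nil (hR : IsReal ℚ R) {M : C} (hC : R.CPlus M)
    (hnil : ∀ n, HomNil R (tp M n)) : IsKimuraFinite M := by
  have hU := unitQ_of_real hR
  have hM : HomNil R M := (hnil 1).retract (λ_ M).inv (λ_ M).hom (by simp)
  rcases Nat.eq_zero_or_pos (bt R M) with hb | hb
  · refine kimura_of_zero (hM.id_eq_zero ?_)
    have h0 := R.finite M
    unfold bt at hb
    rw [Module.finrank_zero_iff] at hb
    exact ModuleCat.isZero_of_subsingleton _
  · obtain ⟨p, hp⟩ := hC
    exact kimura_of_pull (𝟭 C) hR (T := M) p hp (fun n _ y hy => hnil n y hy) hb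

lemma kimura_of_dec (hR : IsReal ℚ R) {M : C} (h : Dec M) (hC : R.CPlus M) :
    IsKimuraFinite M :=
  kimura_of_nil hR hC fun n => (dec_tp h n).homNil R (unitQ_of_real hR)

/-- Tensor products of Kimura finite objects are Kimura finite (a theorem of Kimura). -/
lemma kimura_tensor (hR : IsReal ℚ R) {A B : C} (hA : IsKimuraFinite A)
    (hB : IsKimuraFinite B) : IsKimuraFinite (A ⊗ B) :=
  kimura_of_dec hR ((dec_of_kimura hA).tensor (dec_of_kimura hB))
    (Pool.Agent.Y112.SR.cplus_tensor R (hA.cplus R) (hB.cplus R))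

/-- Direct sums of Kimura finite objects are Kimura finite (a theorem of Kimura). -/
lemma kimura_sum (hR : IsReal ℚ R) {M A B : C} (h : IsSumOf M A B) (hA : IsKimuraFinite A)
    (hB : IsKimuraFinite B) : IsKimuraFinite M := by
  obtain ⟨i, r, i', r', h1, h2, h3⟩ := h
  refine kimura_of_dec hR ?_ ?_
  · obtain ⟨ι, _, P, a, b, k1, k2, k3⟩ := dec_of_kimura hA
    obtain ⟨κ, _, Q, c, d, l1, l2, l3⟩ := dec_of_kimura hB
    refine ⟨ι ⊕ κ, inferInstance, Sum.elim P Q, fun x => match x with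
      | Sum.inl x => a x ≫ i
      | Sum.inr x => c x ≫ i', fun x => match x with
      | Sum.inl x => r ≫ b x
      | Sum.inr x => r' ≫ d x, ?_, ?_, ?_⟩
    · rintro (x | x)
      · change (a x ≫ i) ≫ r ≫ b x = 𝟙 _
        rw [Category.assoc, reassoc_of% h1, k1]
      · change (c x ≫ i') ≫ r' ≫ d x = 𝟙 _
        rw [Category.assoc, reassoc_of% h2, l1]
    · rw [Fintype.sum_sum_type]
      change ∑ x, (r ≫ b x) ≫ a x ≫ i + ∑ x, (r' ≫ d x) ≫ c x ≫ i' = 𝟙 M
      have e1 : ∑ x, (r ≫ b x) ≫ a x ≫ i = r ≫ (∑ x, b x ≫ a x) ≫ i := by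
        rw [Preadditive.sum_comp, Preadditive.comp_sum]
        exact Finset.sum_congr rfl fun x _ => by simp only [Category.assoc]
      have e2 : ∑ x, (r' ≫ d x) ≫ c x ≫ i' = r' ≫ (∑ x, d x ≫ c x) ≫ i' := by
        rw [Preadditive.sum_comp, Preadditive.comp_sum]
        exact Finset.sum_congr rfl fun x _ => by simp only [Category.assoc]
      rw [e1, e2, k2, l2, Category.id_comp, Category.id_comp, h3]
    · rintro (x | x)
      · exact k3 x
      · exact l3 x
  · rw [cplus_iff]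
    obtain ⟨f, hf⟩ := (cplus_iff R A).1 (hA.cplus R)
    obtain ⟨g, hg⟩ := (cplus_iff R B).1 (hB.cplus R)
    refine ⟨r ≫ f ≫ i + r' ≫ g ≫ i', ?_⟩
    rw [Functor.map_add, Functor.map_comp, Functor.map_comp, Functor.map_comp, Functor.map_comp,
      hf, hg, ← R.par_natural, ← R.par_natural, ← Category.assoc, ← Category.assoc,
      ← Functor.map_comp, ← Functor.map_comp, ← Preadditive.add_comp, ← Functor.map_add, h3,
      CategoryTheory.Functor.map_id, Category.id_comp]

end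

section dual

variable {C : Type u} [Category.{v} C] [Preadditive C] [MonoidalCategory C]
  [MonoidalPreadditive C] [SymmetricCategory C] [RightRigidCategory C]
  [Linear ℚ C] [MonoidalLinear ℚ C] {K : Type w} [Field K] [Algebra ℚ K]
  {R : SuperRealisation C K}

lemma mate_zero {X Y : C} [HasRightDual X] [HasRightDual Y] : ((0 : X ⟶ Y)ᘁ) = 0 := by
  unfold rightAdjointMate
  simp

lemma mate_inj {X : C} {g : X ⟶ X} (h : (Xᘁ ◁ g) ≫ ε_ X Xᘁ = 0) : g = 0 := by
  have h1 : g = (λ_ X).inv ≫ (η_ X Xᘁ ▷ X) ≫ (α_ X Xᘁ X).hom ≫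
      (X ◁ ((Xᘁ ◁ g) ≫ ε_ X Xᘁ)) ≫ (ρ_ X).hom := by
    rw [MonoidalCategory.whiskerLeft_comp]
    simp only [Category.assoc]
    rw [← associator_naturality_right_assoc, ← whisker_exchange_assoc,
      ExactPairing.evaluation_coevaluation_assoc]
    simp
  rw [h1, h]
  simp

lemma map_mate_zero {X : C} (f : X ⟶ X) (hf : R.H.map f = 0) :
    R.H.map (rightAdjointMate f) = 0 := by
  have h1 : R.H.map (f ▷ Xᘁ) = 0 := by
    rw [Pool.Agent.Y112.SC.map_whiskerRight_eq, hf, Pool.Agent.Y112.SC.bx_zero_left]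
  have h2 : R.H.map (Xᘁ ◁ f ▷ Xᘁ) = 0 := by
    have h3 : R.H.map (Xᘁ ◁ (f ▷ Xᘁ)) = R.H.map ((β_ Xᘁ (X ⊗ Xᘁ)).hom ≫
        ((f ▷ Xᘁ) ▷ Xᘁ) ≫ (β_ Xᘁ (X ⊗ Xᘁ)).inv) := by
      congr 1
      rw [← BraidedCategory.braiding_naturality_right_assoc, Iso.hom_inv_id, Category.comp_id]
    rw [h3, Functor.map_comp, Functor.map_comp, Pool.Agent.Y112.SC.map_whiskerRight_eq R (f ▷ Xᘁ),
      h1, Pool.Agent.Y112.SC.bx_zero_left, zero_comp, comp_zero]
  unfold rightAdjointMate
  simp only [Functor.map_comp, h2, zero_comp, comp_zero]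

/-- Nilpotence passes to the dual. -/
lemma homNil_dual {M : C} (h : HomNil R M) : HomNil R (Mᘁ) := by
  intro f hf
  have e : (Mᘁ)ᘁ ≅ M :=
    letI : ExactPairing Mᘁ M := BraidedCategory.exactPairing_swap M Mᘁ
    rightDualIso (X := Mᘁ) (inferInstance) (inferInstance)
  have h' : HomNil R ((Mᘁ)ᘁ) := h.retract e.hom e.inv e.hom_inv_id
  obtain ⟨n, hn⟩ := h' (en (rightAdjointMate (f : Mᘁ ⟶ Mᘁ))) (map_mate_zero _ hf)
  refine ⟨n, ?_⟩
  have h1 : ∀ n : ℕ, en (rightAdjointMate ((f ^ n : End Mᘁ) : Mᘁ ⟶ Mᘁ)) =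
      en (rightAdjointMate (f : Mᘁ ⟶ Mᘁ)) ^ n := by
    intro n
    induction n with
    | zero =>
      rw [pow_zero, pow_zero]
      exact rightAdjointMate_id
    | succ n ih =>
      rw [pow_succ', pow_succ, End.mul_def, End.mul_def, ← ih]
      exact comp_rightAdjointMate
  rw [← h1] at hn
  apply mate_inj
  rw [← rightAdjointMate_comp_evaluation]
  have h2 : rightAdjointMate ((f ^ n : End Mᘁ) : Mᘁ ⟶ Mᘁ) = 0 := hn
  rw [h2]
  simp

/-- The tensor powers of the dual are dual to the tensor powers. -/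
@[reducible] noncomputable def pairTp (A : C) : ∀ n, ExactPairing (tp A n) (tp (Aᘁ) n)
  | 0 => exactPairingUnit
  | n + 1 =>
    letI := pairTp A n
    letI : ExactPairing (tp A n ⊗ A) (Aᘁ ⊗ tp (Aᘁ) n) := ExactPairing.tensor
    exactPairingCongrRight (β_ (tp (Aᘁ) n) Aᘁ)

lemma homNil_tp_dual {A : C} {n : ℕ} (h : HomNil R (tp A n)) : HomNil R (tp (Aᘁ) n) := by
  have e : tp (Aᘁ) n ≅ (tp A n)ᘁ :=
    letI := pairTp A n
    rightDualIso (X := tp A n) (inferInstance) (inferInstance)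
  exact (homNil_dual h).retract e.hom e.inv e.hom_inv_id

end dual

section

variable {C : Type u} [Category.{v} C] [Preadditive C] [MonoidalCategory C]
  [MonoidalPreadditive C] [SymmetricCategory C] [RightRigidCategory C]
  [Linear ℚ C] [MonoidalLinear ℚ C] [IsIdempotentComplete C]
  {K : Type w} [Field K] [Algebra ℚ K] {R : SuperRealisation C K}

/-- The dual of a Kimura finite object is Kimura finite. -/
lemma kimura_dual (hR : IsReal ℚ R) {A : C} (hA : IsKimuraFinite A) :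
    IsKimuraFinite (Aᘁ) :=
  kimura_of_nil hR (Pool.Agent.N64.AF.cplus_dual hR (hA.cplus R)) fun n =>
    homNil_tp_dual (homNil_tp R (unitQ_of_real hR) hA n)

omit [RightRigidCategory C] in
/-- The unit object is Kimura finite. -/
lemma kimura_unit (hR : IsReal ℚ R) [RightRigidCategory C] : IsKimuraFinite (𝟙_ C) :=
  kimura_of_dec hR dec_unit (Pool.Agent.N64.AF.cplus_unit R)

end

end Pool.Agent.Zk50.KF
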