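import Pool.Agent.Zk50.KF.Clo
import Pool.Agent.N64.AF.A1

/-!
# Endomorphisms of Kimura finite objects are algebraic; splitting off summands
-/

set_option autoImplicit false
set_option linter.unusedSectionVars false
set_option backward.isDefEq.respectTransparency false
set_option backward.defeqAttrib.useBackward true

open CategoryTheory Limits MonoidalCategory Module Polynomial
open Pool.Agent.Y112.SR Pool.Agent.Y112.KD Pool.Agent.R905 Pool.Agent.N64.AF
open Pool.Agent.Zk51.KT
open Pool.Agent.TH829.Kim (InRad Killed isNilpotent_of_inRad)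
open Pool.Agent.Y116.MT (tr)

namespace Pool.Agent.Zk50.KF

universe v u w

/-- The decomposition of Fitting for an algebraic element. -/
lemma fitting {A : Type*} [Ring A] [Algebra ℚ A] {u : A} {P : ℚ[X]} (hP : P ≠ 0)
    (hu : aeval u P = 0) : ∃ h : A, Commute h u ∧ (u * h) * (u * h) = u * h ∧
      IsNilpotent (u * (1 - u * h)) := by
  obtain ⟨G, hG1, hG2⟩ := Polynomial.exists_eq_pow_rootMultiplicity_mul_and_not_dvd P hP 0
  set m := rootMultiplicity 0 P with hm
  rw [C_0, sub_zero] at hG1 hG2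
  have hcop : IsCoprime (X ^ (m + 1)) G :=
    (((Polynomial.irreducible_X (R := ℚ)).coprime_iff_not_dvd).2 hG2).pow_left
  obtain ⟨a, b, hab⟩ := hcop
  have hXG : aeval u (X ^ m * G) = 0 := by rw [← hG1]; exact hu
  have e1 : u * aeval u (a * X ^ m) = aeval u (a * X ^ (m + 1)) := by
    have h1 : a * X ^ (m + 1) = X * (a * X ^ m) := by ring
    rw [h1, map_mul (aeval u) X, aeval_X]
  have e2 : 1 - u * aeval u (a * X ^ m) = aeval u (b * G) := by
    have h1 : b * G = 1 - a * X ^ (m + 1) := by rw [← hab]; ring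
    rw [e1, h1, map_sub, map_one]
  refine ⟨aeval u (a * X ^ m), ?_, ?_, m + 1, ?_⟩
  · have h1 : Commute (aeval u (a * X ^ m)) (aeval u (X : ℚ[X])) := by
      unfold Commute SemiconjBy
      rw [← map_mul, ← map_mul, mul_comm]
    rwa [aeval_X] at h1
  · have h1 : (u * aeval u (a * X ^ m)) * (1 - u * aeval u (a * X ^ m)) = 0 := by
      rw [e2, e1, ← map_mul]
      have h2 : a * X ^ (m + 1) * (b * G) = (a * b * X) * (X ^ m * G) := by ring
      rw [h2, map_mul, hXG, mul_zero]
    rw [mul_sub, mul_one, sub_eq_zero] at h1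
    exact h1.symm
  · have h1 : u * (1 - u * aeval u (a * X ^ m)) = aeval u (X * (b * G)) := by
      rw [e2, map_mul (aeval u) X, aeval_X]
    rw [h1, ← map_pow]
    have h2 : (X * (b * G)) ^ (m + 1) = (X * b ^ (m + 1) * G ^ m) * (X ^ m * G) := by ring
    rw [h2, map_mul, hXG, mul_zero]

section

variable {C : Type u} [Category.{v} C] [Preadditive C] [MonoidalCategory C]
  [MonoidalPreadditive C] [SymmetricCategory C] [RightRigidCategory C]
  [Linear ℚ C] [MonoidalLinear ℚ C] [IsIdempotentComplete C]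
  {K : Type w} [Field K] [Algebra ℚ K] {R : SuperRealisation C K}

omit [IsIdempotentComplete C] in
lemma inRad_of_numTriv (R : SuperRealisation C K) (hU : UnitQ C) {M : C} {f : End M}
    (h : NumTriv (f : M ⟶ M)) : InRad (trq hU M) f := by
  intro γ
  rw [End.mul_def, trq_comm' R hU]
  have h1 := h (γ : M ⟶ M)
  have h2 := trq_spec hU (X := M) ((f : M ⟶ M) ≫ (γ : M ⟶ M))
  rw [h1] at h2
  refine hU.inj ?_
  rw [zero_smul]
  exact h2.symm

/-- Endomorphisms of Kimura finite objects are algebraic. -/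
lemma exists_poly (hR : IsReal ℚ R) {M : C} (hM : IsKimuraFinite M) (u : End M) :
    ∃ P : ℚ[X], P ≠ 0 ∧ aeval u P = 0 := by
  have hU := unitQ_of_real hR
  have hfin := finite_num hR M M
  let φ : ℚ[X] →ₗ[ℚ] (M ⟶ M) ⧸ numIdeal ℚ M M :=
    (numIdeal ℚ M M).mkQ ∘ₗ ((aeval u : ℚ[X] →ₐ[ℚ] End M).toLinearMap : ℚ[X] →ₗ[ℚ] End M)
  have hni : ¬ Function.Injective φ := fun hi =>
    Polynomial.not_finite (Module.Finite.of_injective φ hi)
  obtain ⟨P, hP0, hP⟩ : ∃ P : ℚ[X], φ P = 0 ∧ P ≠ 0 := by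
    by_contra hcon
    push Not at hcon
    exact hni ((injective_iff_map_eq_zero φ).2 hcon)
  have h1 : NumTriv ((aeval u P : End M) : M ⟶ M) := by
    have h2 : (aeval u P : End M) ∈ numIdeal ℚ M M := (Submodule.Quotient.mk_eq_zero _).1 hP0
    exact h2
  obtain ⟨n, hn⟩ := nil_of_inRad R hU hM (inRad_of_numTriv R hU h1)
  refine ⟨P ^ n, pow_ne_zero n hP, ?_⟩
  rw [map_pow]
  exact hn

omit [IsIdempotentComplete C] in
lemma isZero_of_bt {M : C} (h : bt R M = 0) : IsZero (R.H.obj M) := by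
  have h0 := R.finite M
  unfold bt at h
  rw [Module.finrank_zero_iff] at h
  exact ModuleCat.isZero_of_subsingleton _

omit [IsIdempotentComplete C] in
/-- The trace of an endomorphism with nilpotent realisation. -/
lemma trq_nil (hU : UnitQ C) {M : C} (x : End M) (n : ℕ)
    (hx : R.H.map ((x ^ n : End M) : M ⟶ M) = 0) : trq hU M x = 0 := by
  have hc := R_charZero R
  have h0 := R.finite M
  have h1 := real_tr R hU (x : M ⟶ M)
  have hcom : R.H.map (x : M ⟶ M) ≫ R.par M = R.par M ≫ R.H.map (x : M ⟶ M) :=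
    R.par_natural _
  have hpow : ∀ n : ℕ, ((R.H.map (x : M ⟶ M) ≫ R.par M).hom) ^ n =
      (R.H.map ((x ^ n : End M) : M ⟶ M)).hom * (R.par M).hom ^ n := by
    intro n
    induction n with
    | zero =>
      rw [pow_zero, pow_zero, pow_zero, mul_one]
      have : ((1 : End M) : M ⟶ M) = 𝟙 M := rfl
      rw [this, CategoryTheory.Functor.map_id, ModuleCat.hom_id]
      rfl
    | succ n ih =>
      have e1 : ((x ^ (n + 1) : End M) : M ⟶ M) = (x : M ⟶ M) ≫ ((x ^ n : End M) : M ⟶ M) := by
        rw [pow_succ, End.mul_def]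
      have e2 : (R.H.map (x : M ⟶ M) ≫ R.par M).hom =
          (R.par M).hom * (R.H.map (x : M ⟶ M)).hom := rfl
      have e3 : (R.par M).hom * (R.H.map (x : M ⟶ M)).hom =
          (R.H.map (x : M ⟶ M)).hom * (R.par M).hom :=
        congrArg ModuleCat.Hom.hom hcom
      have e4 : (R.H.map ((x ^ (n + 1) : End M) : M ⟶ M)).hom =
          (R.H.map ((x ^ n : End M) : M ⟶ M)).hom * (R.H.map (x : M ⟶ M)).hom := by
        rw [e1, Functor.map_comp]
        rfl
      have e5 : Commute ((R.par M).hom ^ n) ((R.H.map (x : M ⟶ M)).hom) := Commute.pow_left e3 n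
      rw [pow_succ, ih, e2, e3, e4, pow_succ, mul_assoc, ← mul_assoc ((R.par M).hom ^ n),
        e5.eq]
      simp only [mul_assoc]
  have hnil : IsNilpotent ((R.H.map (x : M ⟶ M) ≫ R.par M).hom) := by
    refine ⟨n, ?_⟩
    rw [hpow, hx]
    rw [ModuleCat.hom_zero]
    exact zero_mul _
  have h2 := LinearMap.isNilpotent_trace_of_isNilpotent hnil
  have h3 : LinearMap.trace K (R.H.obj M) (R.H.map (x : M ⟶ M) ≫ R.par M).hom = 0 :=
    h2.eq_zero
  rw [h3] at h1
  exact_mod_cast h1

/-- If a composite `A ⟶ N ⟶ A` has a nonzero trace and `A` is Kimura finite then `A` and `N` have a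
common direct summand of positive rank. -/
lemma split_of_tr (hR : IsReal ℚ R) {A N : C} (hA : IsKimuraFinite A) (f : A ⟶ N) (g : N ⟶ A)
    (h : trq (unitQ_of_real hR) A (f ≫ g) ≠ 0) :
    ∃ B : C, IsSummand B A ∧ IsSummand B N ∧ 0 < bt R B := by
  have hU := unitQ_of_real hR
  set u : End A := en (f ≫ g) with hu
  obtain ⟨P, hP, hP0⟩ := exists_poly hR hA u
  obtain ⟨t, ht, hid, hnil⟩ := fitting hP hP0
  have hidc : ((u * t : End A) : A ⟶ A) ≫ ((u * t : End A) : A ⟶ A) = ((u * t : End A) : A ⟶ A) := by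
    have h1 := hid
    rw [End.mul_def (u * t) (u * t)] at h1
    exact h1
  obtain ⟨B, i, r, h1, h2⟩ := IsIdempotentComplete.idempotents_split A
    ((u * t : End A) : A ⟶ A) hidc
  have hut : ((u * t : End A) : A ⟶ A) = (f ≫ g) ≫ (t : A ⟶ A) := by
    rw [← ht.eq, End.mul_def]
    rfl
  refine ⟨B, ⟨i, r, h1⟩, ⟨i ≫ f, g ≫ (t : A ⟶ A) ≫ r, ?_⟩, ?_⟩
  · have e1 : (i ≫ f) ≫ g ≫ (t : A ⟶ A) ≫ r = i ≫ ((f ≫ g) ≫ (t : A ⟶ A)) ≫ r := by
      simp only [Category.assoc]
    rw [e1, ← hut, ← h2]
    simp only [Category.assoc, h1, Category.comp_id]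
  · by_contra hcon
    have hb : bt R B = 0 := by omega
    apply h
    have hz := isZero_of_bt (R := R) hb
    obtain ⟨n, hn⟩ := hnil
    have he0 : R.H.map ((u * t : End A) : A ⟶ A) = 0 := by
      rw [← h2, Functor.map_comp, hz.eq_of_tgt (R.H.map r) 0, Limits.zero_comp]
    -- the powers of `u` and of `u (1 - u t)` have the same realisation
    have hpow : ∀ n : ℕ, R.H.map (((u * (1 - u * t)) ^ n : End A) : A ⟶ A) =
        R.H.map ((u ^ n : End A) : A ⟶ A) := by
      intro n
      induction n with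
      | zero => rw [pow_zero, pow_zero]
      | succ n ih =>
        have e0 : ∀ x : End A, R.H.map ((x ^ (n + 1) : End A) : A ⟶ A) =
            R.H.map (x : A ⟶ A) ≫ R.H.map ((x ^ n : End A) : A ⟶ A) := by
          intro x
          rw [pow_succ, End.mul_def, Functor.map_comp]
        rw [e0, e0, ih]
        congr 1
        have e1 : (u * (1 - u * t) : End A) = u - u * (u * t) := by
          rw [mul_sub, mul_one]
        have e2 : ((u * (u * t) : End A) : A ⟶ A) = ((u * t : End A) : A ⟶ A) ≫ (u : A ⟶ A) := by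
          rw [End.mul_def u (u * t)]
        have e3 : R.H.map ((u * (1 - u * t) : End A) : A ⟶ A) =
            R.H.map (u : A ⟶ A) - R.H.map ((u * (u * t) : End A) : A ⟶ A) := by
          rw [e1]
          exact Functor.map_sub _
        rw [e3, e2, Functor.map_comp, he0, Limits.zero_comp, sub_zero]
    refine trq_nil (R := R) (unitQ_of_real hR) u n ?_
    rw [← hpow, hn]
    exact Functor.map_zero _ _ _

end

end Pool.Agent.Zk50.KF
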