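import Pool.Agent.Zk50.KF.Rk
import Pool.Agent.N64.AF.E1

/-!
# The fifty percent law for the summands in a tensor class of Kimura finite objects
-/

set_option autoImplicit false
set_option linter.unusedSectionVars false
set_option backward.isDefEq.respectTransparency false
set_option backward.defeqAttrib.useBackward true

open CategoryTheory Limits MonoidalCategory Module Filter Topology
open Pool.Agent.Y112.SR Pool.Agent.Y112.KD Pool.Agent.R905 Pool.Agent.N64.AF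
open Pool.Agent.Zk51.KT

namespace Pool.Agent.Zk50.KF

universe v u w

section Seq

/-- Submultiplicative sequences bounded by `b ^ n`. -/
lemma seq_lim (y : ℕ → ℤ) (b : ℕ) (hb : 0 < b) (h1 : ∀ n, y n ≤ (b : ℤ) ^ n)
    (h2 : ∀ m n, y (m + n) ≤ y m * y n) (h3 : ∀ N, 1 ≤ N → y N < (b : ℤ) ^ N) (ε : ℝ)
    (hε : 0 < ε) : ∃ n₀ : ℕ, ∀ n, n₀ ≤ n → (y n : ℝ) ≤ ε * (b : ℝ) ^ n := by
  have hb' : (0 : ℝ) < b := by exact_mod_cast hb
  by_cases hneg : ∀ n, 1 ≤ n → y n < 0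
  · refine ⟨1, fun n hn => ?_⟩
    have h4 : (y n : ℝ) < 0 := by exact_mod_cast hneg n hn
    have : 0 < ε * (b : ℝ) ^ n := by positivity
    linarith
  · push Not at hneg
    obtain ⟨N, hN1, hN⟩ := hneg
    set c : ℝ := (y N : ℝ) / (b : ℝ) ^ N with hc
    have hc0 : 0 ≤ c := by
      have : (0 : ℝ) ≤ y N := by exact_mod_cast hN
      positivity
    have hc1 : c < 1 := by
      rw [hc, div_lt_one (by positivity)]
      exact_mod_cast h3 N hN1
    have hyN : (y N : ℝ) = c * (b : ℝ) ^ N := by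
      rw [hc]
      field_simp
    have key : ∀ n, (y n : ℝ) ≤ c ^ (n / N) * (b : ℝ) ^ n := by
      intro n
      induction n using Nat.strong_induction_on with
      | _ n ih =>
        rcases lt_or_ge n N with h | h
        · rw [Nat.div_eq_of_lt h, pow_zero, one_mul]
          exact_mod_cast h1 n
        · obtain ⟨m, rfl⟩ := Nat.exists_eq_add_of_le' h
          have h4 : (y (m + N) : ℝ) ≤ (y m : ℝ) * y N := by exact_mod_cast h2 m N
          have h5 := ih m (by omega)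
          have h6 : (m + N) / N = m / N + 1 := Nat.add_div_right m (by omega)
          rw [h6]
          refine h4.trans ?_
          rw [hyN]
          calc (y m : ℝ) * (c * (b : ℝ) ^ N) ≤ (c ^ (m / N) * (b : ℝ) ^ m) * (c * (b : ℝ) ^ N) :=
                mul_le_mul_of_nonneg_right h5 (by positivity)
            _ = _ := by ring
    obtain ⟨q, hq⟩ := exists_pow_lt_of_lt_one hε hc1
    refine ⟨q * N, fun n hn => (key n).trans ?_⟩
    have h4 : q ≤ n / N := (Nat.le_div_iff_mul_le (by omega)).2 hn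
    exact mul_le_mul_of_nonneg_right ((pow_le_pow_of_le_one hc0 hc1.le h4).trans hq.le)
      (by positivity)

lemma int_pinch {p q P Q : ℤ} (hQ : 0 < Q) (hp : |p| ≤ P) (hq : |q| ≤ Q)
    (h : P * Q ≤ p * q) : |p| = P := by
  have h1 : p * q ≤ |p| * |q| := by
    rw [← abs_mul]
    exact le_abs_self _
  have h2 : |p| * |q| ≤ |p| * Q := mul_le_mul_of_nonneg_left hq (abs_nonneg _)
  have h3 : P * Q ≤ |p| * Q := h.trans (h1.trans h2)
  exact le_antisymm hp (le_of_mul_le_mul_right h3 hQ)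

end Seq

section

variable {C : Type u} [Category.{v} C] [Preadditive C] [MonoidalCategory C]
  [MonoidalPreadditive C] [SymmetricCategory C] [RightRigidCategory C]
  [Linear ℚ C] [MonoidalLinear ℚ C] [IsIdempotentComplete C] {K : Type w} [Field K]

/-- `T` is the direct sum of an object of `𝒦` and of an object with trivial realisation. -/
def Full (R : SuperRealisation C K) (𝒦 : C → Prop) (T : C) : Prop :=
  ∃ A P, 𝒦 A ∧ IsSumOf T A P ∧ bt R P = 0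

/-- The largest summand of `T` in `𝒦`. -/
def HasLargest (R : SuperRealisation C K) (𝒦 : C → Prop) (T : C) : Prop :=
  ∃ A Z, 𝒦 A ∧ IsSumOf T A Z ∧ bt R A = rk R 𝒦 T ∧ (∀ B, 𝒦 B → IsSummand B T → IsSummand B A) ∧
    ∀ B, 𝒦 B → ∀ (f : B ⟶ Z) (g : Z ⟶ B), IsNilpotent (en (f ≫ g))

/-- The rules for the index. -/
structure IndexRules (R : SuperRealisation C K) (𝒦 : C → Prop) : Prop where
  sum : ∀ T X Y : C, IsSumOf T X Y → ind R 𝒦 T = ind R 𝒦 X + ind R 𝒦 Y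
  dual : ∀ T : C, ind R 𝒦 (Tᘁ) = ind R 𝒦 T
  tensor : ∀ X Y : C, ind R 𝒦 (X ⊗ Y) ≤ ind R 𝒦 X * ind R 𝒦 Y
  bound : ∀ T : C, |ind R 𝒦 T| ≤ bt R T
  full : ∀ T : C, ind R 𝒦 T = bt R T ↔ Full R 𝒦 T

/-- The share of the largest summand in `𝒦` of the tensor powers of `T` is at most one half in the
limit. -/
def AtMostHalf (R : SuperRealisation C K) (𝒦 : C → Prop) (T : C) : Prop :=
  ∀ ε : ℝ, 0 < ε → ∃ n₀ : ℕ, ∀ n, n₀ ≤ n →
    (rk R 𝒦 (tp T n) : ℝ) ≤ (1 / 2 + ε) * (bt R T : ℝ) ^ n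

/-- The tensor powers with exponent divisible by `N` are full and the others have no summand of
positive rank in `𝒦`. -/
def Periodic (R : SuperRealisation C K) (𝒦 : C → Prop) (T : C) (N : ℕ) : Prop :=
  ∀ n, (N ∣ n → Full R 𝒦 (tp T n)) ∧ (¬ N ∣ n → rk R 𝒦 (tp T n) = 0)

variable [Algebra ℚ K] {R : SuperRealisation C K} {𝒦 : C → Prop}

lemma rk_le_bt (R : SuperRealisation C K) (h𝒦 : IsTensorClass 𝒦) (T : C) :
    rk R 𝒦 T ≤ bt R T :=
  rk_le R h𝒦 T fun _ _ hs => bt_summand R hs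

lemma abs_ind_le (R : SuperRealisation C K) (h𝒦 : IsTensorClass 𝒦) (T : C) :
    |ind R 𝒦 T| ≤ bt R T := by
  have h1 := rk_le_bt R h𝒦 T
  unfold ind
  rw [abs_le]
  constructor <;> omega

lemma rk_congr (R : SuperRealisation C K) (h𝒦 : IsTensorClass 𝒦) {X Y : C} (e : X ≅ Y) :
    rk R 𝒦 X = rk R 𝒦 Y := by
  apply le_antisymm
  · exact rk_le R h𝒦 _ fun A hA hs => le_rk hA (summand_trans hs ⟨e.hom, e.inv, e.hom_inv_id⟩)
  · exact rk_le R h𝒦 _ fun A hA hs => le_rk hA (summand_trans hs ⟨e.inv, e.hom, e.inv_hom_id⟩)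

lemma bt_congr (R : SuperRealisation C K) {X Y : C} (e : X ≅ Y) : bt R X = bt R Y :=
  le_antisymm (bt_summand R ⟨e.hom, e.inv, e.hom_inv_id⟩)
    (bt_summand R ⟨e.inv, e.hom, e.inv_hom_id⟩)

lemma ind_congr (R : SuperRealisation C K) (h𝒦 : IsTensorClass 𝒦) {X Y : C} (e : X ≅ Y) :
    ind R 𝒦 X = ind R 𝒦 Y := by
  unfold ind
  rw [rk_congr R h𝒦 e, bt_congr R e]

lemma hasLargest (hR : IsReal ℚ R) (h𝒦 : IsTensorClass 𝒦) (T : C) : HasLargest R 𝒦 T := by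
  obtain ⟨A, Z, hA, hT, hZ⟩ := exists_dec hR h𝒦 T
  refine ⟨A, Z, hA, hT, (rk_eq hR h𝒦 hT hA hZ).symm, fun B hB hs => ?_, fun B hB f g => ?_⟩
  · refine summand_of_perp hR h𝒦 (N := Z) (N' := A) ?_ hZ hB hs
    obtain ⟨i, r, i', r', h1, h2, h3⟩ := hT
    exact ⟨i', r', i, r, h2, h1, by rw [add_comm]; exact h3⟩
  · refine nil_of_inRad R (unitQ_of_real hR) (h𝒦.kimura B hB) ?_
    intro γ
    rw [End.mul_def, trq_comm' R (unitQ_of_real hR)]
    have h4 := hZ B hB f (g ≫ (γ : B ⟶ B))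
    rw [← Category.assoc] at h4
    exact h4

lemma perp_of_bt (hR : IsReal ℚ R) (h𝒦 : IsTensorClass 𝒦) {P : C} (h : bt R P = 0) :
    Perp (unitQ_of_real hR) 𝒦 P := by
  rw [perp_iff hR h𝒦]
  intro B _ hs
  have := bt_summand R hs
  omega

lemma full_iff (hR : IsReal ℚ R) (h𝒦 : IsTensorClass 𝒦) (T : C) :
    ind R 𝒦 T = bt R T ↔ Full R 𝒦 T := by
  constructor
  · intro h
    obtain ⟨A, Z, hA, hT, hZ⟩ := exists_dec hR h𝒦 T
    have h1 := rk_eq hR h𝒦 hT hA hZ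
    have h2 := bt_sumOf R hT
    refine ⟨A, Z, hA, hT, ?_⟩
    unfold ind at h
    omega
  · rintro ⟨A, P, hA, hT, hP⟩
    have h1 := rk_eq hR h𝒦 hT hA (perp_of_bt hR h𝒦 hP)
    have h2 := bt_sumOf R hT
    unfold ind
    omega

lemma ind_tensor (hR : IsReal ℚ R) (h𝒦 : IsTensorClass 𝒦) (X Y : C) :
    ind R 𝒦 (X ⊗ Y) ≤ ind R 𝒦 X * ind R 𝒦 Y := by
  have h1 := rk_tensor_le hR h𝒦 X Y
  have h2 := rk_le_bt R h𝒦 X
  have h3 := rk_le_bt R h𝒦 Y
  obtain ⟨s, hs⟩ := Nat.exists_eq_add_of_le h2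
  obtain ⟨t, ht⟩ := Nat.exists_eq_add_of_le h3
  have e1 : bt R X - rk R 𝒦 X = s := by omega
  have e2 : bt R Y - rk R 𝒦 Y = t := by omega
  rw [e1, e2] at h1
  have h4 : (rk R 𝒦 (X ⊗ Y) : ℤ) ≤ rk R 𝒦 X * rk R 𝒦 Y + s * t := by exact_mod_cast h1
  unfold ind
  rw [bt_tensor, hs, ht]
  push_cast
  nlinarith

lemma indexRules (hR : IsReal ℚ R) (h𝒦 : IsTensorClass 𝒦) : IndexRules R 𝒦 where
  sum T X Y h := by
    unfold ind
    rw [rk_sum hR h𝒦 h, bt_sumOf R h]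
    push_cast
    ring
  dual T := by
    unfold ind
    rw [rk_dual hR h𝒦, bt_dual]
  tensor := ind_tensor hR h𝒦
  bound := abs_ind_le R h𝒦
  full := full_iff hR h𝒦

lemma rk_tensor_ge (hR : IsReal ℚ R) (h𝒦 : IsTensorClass 𝒦) (X Y : C) :
    rk R 𝒦 X * rk R 𝒦 Y ≤ rk R 𝒦 (X ⊗ Y) := by
  obtain ⟨A, Z, hA, hX, hZ⟩ := exists_dec hR h𝒦 X
  obtain ⟨A', Z', hA', hY, hZ'⟩ := exists_dec hR h𝒦 Y
  rw [rk_eq hR h𝒦 hX hA hZ, rk_eq hR h𝒦 hY hA' hZ', ← bt_tensor]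
  obtain ⟨i, r, h1⟩ := summand_left hX
  obtain ⟨j, s, h2⟩ := summand_left hY
  exact le_rk (h𝒦.tensor A A' hA hA') ⟨i ⊗ₘ j, r ⊗ₘ s, by
    rw [tensorHom_comp_tensorHom, h1, h2, id_tensorHom_id]⟩

lemma ind_full (hR : IsReal ℚ R) (h𝒦 : IsTensorClass 𝒦) (X : C) {Y : C}
    (hY : ind R 𝒦 Y = bt R Y) : ind R 𝒦 (X ⊗ Y) = ind R 𝒦 X * bt R Y := by
  apply le_antisymm
  · rw [← hY]
    exact ind_tensor hR h𝒦 X Y
  · have h1 := rk_tensor_ge hR h𝒦 X Y
    have h2 : rk R 𝒦 Y = bt R Y := by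
      unfold ind at hY
      omega
    rw [h2] at h1
    unfold ind
    rw [bt_tensor]
    have h3 : (rk R 𝒦 X * bt R Y : ℤ) ≤ rk R 𝒦 (X ⊗ Y) := by exact_mod_cast h1
    push_cast
    nlinarith

lemma bt_tp' (R : SuperRealisation C K) (T : C) (n : ℕ) : bt R (tp T n) = bt R T ^ n := by
  induction n with
  | zero =>
    change bt R (𝟙_ C) = _
    rw [bt_unit, pow_zero]
  | succ n ih =>
    change bt R (tp T n ⊗ T) = _
    rw [bt_tensor, ih, pow_succ]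

lemma ind_tp_add (hR : IsReal ℚ R) (h𝒦 : IsTensorClass 𝒦) (T : C) (m n : ℕ) :
    ind R 𝒦 (tp T (m + n)) ≤ ind R 𝒦 (tp T m) * ind R 𝒦 (tp T n) := by
  obtain ⟨e, -⟩ := exists_tp_iso T m n
  rw [← ind_congr R h𝒦 e]
  exact ind_tensor hR h𝒦 _ _

lemma half_of_not_full (hR : IsReal ℚ R) (h𝒦 : IsTensorClass 𝒦) {T : C} (hb : 0 < bt R T)
    (h : ∀ N, 1 ≤ N → ¬ Full R 𝒦 (tp T N)) : AtMostHalf R 𝒦 T := by
  intro ε hε
  have hbn : ∀ n, |ind R 𝒦 (tp T n)| ≤ (bt R T : ℤ) ^ n := by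
    intro n
    have h1 := abs_ind_le R h𝒦 (tp T n)
    rw [bt_tp'] at h1
    exact_mod_cast h1
  obtain ⟨n₀, hn₀⟩ := seq_lim (fun n => ind R 𝒦 (tp T n)) (bt R T) hb
    (fun n => (le_abs_self _).trans (hbn n)) (fun m n => ind_tp_add hR h𝒦 T m n)
    (fun N hN => by
      refine lt_of_le_of_ne ((le_abs_self _).trans (hbn N)) fun h1 => h N hN ?_
      rw [← full_iff hR h𝒦, h1, bt_tp']
      push_cast
      rfl) (2 * ε) (by positivity)
  refine ⟨n₀, fun n hn => ?_⟩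
  have h1 := hn₀ n hn
  have h2 : ((ind R 𝒦 (tp T n) : ℤ) : ℝ) = 2 * rk R 𝒦 (tp T n) - (bt R T : ℝ) ^ n := by
    unfold ind
    rw [bt_tp']
    push_cast
    ring
  rw [h2] at h1
  linarith

lemma periodic_of_full (hR : IsReal ℚ R) (h𝒦 : IsTensorClass 𝒦) {T : C} (hb : 0 < bt R T)
    (h : ∃ N, 1 ≤ N ∧ Full R 𝒦 (tp T N)) : ∃ N, 1 ≤ N ∧ Periodic R 𝒦 T N := by
  classical
  have hbn : ∀ n, |ind R 𝒦 (tp T n)| ≤ (bt R T : ℤ) ^ n := by
    intro n
    have h1 := abs_ind_le R h𝒦 (tp T n)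
    rw [bt_tp'] at h1
    exact_mod_cast h1
  obtain ⟨N, ⟨hN1, hN⟩, hmin⟩ : ∃ N, (1 ≤ N ∧ Full R 𝒦 (tp T N)) ∧
      ∀ m, m < N → ¬ (1 ≤ m ∧ Full R 𝒦 (tp T m)) :=
    ⟨Nat.find h, Nat.find_spec h, fun m hm => Nat.find_min h hm⟩
  refine ⟨N, hN1, ?_⟩
  have hfN := (full_iff hR h𝒦 _).2 hN
  have hpos : ∀ n : ℕ, (0 : ℤ) < (bt R T : ℤ) ^ n := fun n => by
    have : (0 : ℤ) < bt R T := by exact_mod_cast hb
    positivity
  -- the values below `N`
  have hlow : ∀ r, 0 < r → r < N → ind R 𝒦 (tp T r) = -(bt R T : ℤ) ^ r := by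
    intro r hr hrN
    have h1 := ind_tp_add hR h𝒦 T r (N - r)
    have h2 : r + (N - r) = N := by omega
    rw [h2, hfN, bt_tp'] at h1
    have h3 : ((bt R T ^ N : ℕ) : ℤ) = (bt R T : ℤ) ^ r * (bt R T : ℤ) ^ (N - r) := by
      rw [← pow_add, h2]
      push_cast
      rfl
    rw [h3] at h1
    have h4 := int_pinch (hpos (N - r)) (hbn r) (hbn (N - r)) h1
    rcases abs_eq (hpos r).le |>.1 h4 with h5 | h5
    · exfalso
      apply hmin r hrN
      refine ⟨hr, (full_iff hR h𝒦 _).1 ?_⟩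
      rw [h5, bt_tp']
      push_cast
      rfl
    · exact h5
  -- periodicity
  have hper : ∀ q r : ℕ, ind R 𝒦 (tp T (r + N * q)) =
      ind R 𝒦 (tp T r) * (bt R T : ℤ) ^ (N * q) := by
    intro q r
    induction q with
    | zero => simp
    | succ q ih =>
      obtain ⟨e, -⟩ := exists_tp_iso T (r + N * q) N
      have h1 : r + N * (q + 1) = (r + N * q) + N := by ring
      rw [h1, ← ind_congr R h𝒦 e, ind_full hR h𝒦 _ hfN, ih, bt_tp']
      push_cast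
      ring
  intro n
  have hn : n % N + N * (n / N) = n := Nat.mod_add_div n N
  constructor
  · intro hd
    have h0 : n % N = 0 := Nat.mod_eq_zero_of_dvd hd
    rw [← full_iff hR h𝒦, ← hn, hper, h0]
    have h1 : ind R 𝒦 (tp T 0) = 1 := by
      have h2 : rk R 𝒦 (𝟙_ C) = 1 := by
        apply le_antisymm
        · rw [← bt_unit R]
          exact rk_le_bt R h𝒦 _
        · rw [← bt_unit R]
          exact le_rk h𝒦.unit ⟨𝟙 _, 𝟙 _, Category.comp_id _⟩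
      change 2 * (rk R 𝒦 (𝟙_ C) : ℤ) - bt R (𝟙_ C) = 1
      rw [h2, bt_unit]
      norm_num
    rw [h1, bt_tp', zero_add, one_mul]
    push_cast
    rfl
  · intro hd
    have h0 : 0 < n % N := Nat.pos_of_ne_zero fun h => hd (Nat.dvd_of_mod_eq_zero h)
    have h1 : n % N < N := Nat.mod_lt n (by omega)
    have h2 := hper (n / N) (n % N)
    rw [hlow _ h0 h1, hn, neg_mul, ← pow_add, hn] at h2
    unfold ind at h2
    rw [bt_tp'] at h2
    push_cast at h2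
    have : (rk R 𝒦 (tp T n) : ℤ) = 0 := by linarith
    exact_mod_cast this

/-- The dichotomy. -/
theorem dichotomy (hR : IsReal ℚ R) (h𝒦 : IsTensorClass 𝒦) {T : C} (hb : 0 < bt R T) :
    (∃ N, 1 ≤ N ∧ Periodic R 𝒦 T N) ∨ AtMostHalf R 𝒦 T := by
  by_cases h : ∃ N, 1 ≤ N ∧ Full R 𝒦 (tp T N)
  · exact Or.inl (periodic_of_full hR h𝒦 hb h)
  · push Not at h
    exact Or.inr (half_of_not_full hR h𝒦 hb h)

lemma one_iso (T : C) : Nonempty (tp T 1 ≅ T) := ⟨λ_ T⟩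

/-- The bound for each power. -/
theorem pow_bound (hR : IsReal ℚ R) (h𝒦 : IsTensorClass 𝒦) (T : C) (n : ℕ) :
    ind R 𝒦 (tp T (n + 1)) ≤ |ind R 𝒦 T| * (bt R T : ℤ) ^ n := by
  have hbn : |ind R 𝒦 (tp T n)| ≤ (bt R T : ℤ) ^ n := by
    have h1 := abs_ind_le R h𝒦 (tp T n)
    rw [bt_tp'] at h1
    exact_mod_cast h1
  have h1 : ind R 𝒦 (tp T (n + 1)) ≤ ind R 𝒦 (tp T n) * ind R 𝒦 T := ind_tensor hR h𝒦 _ _
  refine h1.trans ((le_abs_self _).trans ?_)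
  rw [abs_mul, mul_comm]
  exact mul_le_mul_of_nonneg_left hbn (abs_nonneg _)

theorem pow_bound' (hR : IsReal ℚ R) (h𝒦 : IsTensorClass 𝒦) {T : C} (h : 0 ≤ ind R 𝒦 T)
    (n : ℕ) : ind R 𝒦 (tp T (n + 1)) ≤ ind R 𝒦 T ^ (n + 1) := by
  induction n with
  | zero =>
    obtain ⟨e⟩ := one_iso T
    rw [ind_congr R h𝒦 e, zero_add, pow_one]
  | succ n ih =>
    have h1 : ind R 𝒦 (tp T (n + 1 + 1)) ≤ ind R 𝒦 (tp T (n + 1)) * ind R 𝒦 T :=
      ind_tensor hR h𝒦 _ _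
    refine h1.trans ?_
    rw [pow_succ _ (n + 1)]
    exact mul_le_mul_of_nonneg_right ih h

end

end Pool.Agent.Zk50.KF
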