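import Pool.Agent.Zk50.KF.Law

/-!
# The criterion
-/

set_option autoImplicit false
set_option linter.unusedSectionVars false
set_option backward.isDefEq.respectTransparency false
set_option backward.defeqAttrib.useBackward true

open CategoryTheory Limits MonoidalCategory Module Filter Topology
open Pool.Agent.Y112.SR Pool.Agent.Y112.KD Pool.Agent.R905 Pool.Agent.N64.AF
open Pool.Agent.Zk51.KT

namespace Pool.Agent.Zk50.KF

universe v u w

section

variable {C : Type u} [Category.{v} C] [Preadditive C] [MonoidalCategory C]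
  [MonoidalPreadditive C] [SymmetricCategory C] [RightRigidCategory C]
  [Linear ℚ C] [MonoidalLinear ℚ C] [IsIdempotentComplete C] {K : Type w} [Field K]

/-- The laws for the tensor powers of an object `T` with nonzero realisation. -/
structure PowerLaw (R : SuperRealisation C K) (𝒦 : C → Prop) (T : C) : Prop where
  dich : (∃ N, 1 ≤ N ∧ Periodic R 𝒦 T N) ∨ AtMostHalf R 𝒦 T
  bound : ∀ n, ind R 𝒦 (tp T (n + 1)) ≤ |ind R 𝒦 T| * (bt R T : ℤ) ^ n
  bound' : 0 ≤ ind R 𝒦 T → ∀ n, ind R 𝒦 (tp T (n + 1)) ≤ ind R 𝒦 T ^ (n + 1)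
  crit : 0 < rk R 𝒦 T → List.TFAE [Full R 𝒦 T, ∀ n, Full R 𝒦 (tp T n),
    ∃ n, bt R T ^ (n + 1) - bt R T ^ n < rk R 𝒦 (tp T (n + 1)), ¬ AtMostHalf R 𝒦 T]

variable [Algebra ℚ K] {R : SuperRealisation C K} {𝒦 : C → Prop}

/-- Kimura finite objects form a tensor class. -/
theorem kimura_class (hR : IsReal ℚ R) : IsTensorClass (IsKimuraFinite : C → Prop) where
  kimura _ h := h
  unit := kimura_unit hR
  summand A B h hB := by
    obtain ⟨i, r, h1⟩ := h
    exact hB.retract R (unitQ_of_real hR) i r h1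
  sum T A B h hA hB := kimura_sum hR h hA hB
  tensor A B hA hB := kimura_tensor hR hA hB
  dual A hA := kimura_dual hR hA

/-- Full objects without phantoms. -/
lemma mem_iff (hR : IsReal ℚ R) (h𝒦 : IsTensorClass 𝒦) (T : C) :
    𝒦 T ↔ Full R 𝒦 T ∧ HomNil R T := by
  have hU := unitQ_of_real hR
  constructor
  · intro h
    refine ⟨?_, (h𝒦.kimura T h).homNil R hU⟩
    obtain ⟨Z, i, r, h1, h2⟩ := IsIdempotentComplete.idempotents_split T (0 : T ⟶ T) (by simp)
    have h3 := id_zero h1 h2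
    refine ⟨T, Z, h, ⟨𝟙 T, 𝟙 T, i, r, by simp, h1, by rw [h2]; simp⟩, ?_⟩
    have h4 : IsZero (R.H.obj Z) := by
      rw [IsZero.iff_id_eq_zero, ← CategoryTheory.Functor.map_id, h3, Functor.map_zero]
    have := ModuleCat.subsingleton_of_isZero h4
    unfold bt
    exact finrank_zero_of_subsingleton
  · rintro ⟨⟨A, P, hA, ⟨i, r, i', r', h1, h2, h3⟩, hP⟩, hnil⟩
    have h4 : 𝟙 P = 0 := (hnil.retract i' r' h2).id_eq_zero (isZero_of_bt hP)
    have h5 : r ≫ i = 𝟙 T := by
      rw [← h3, ← Category.id_comp i', h4, zero_comp, comp_zero, add_zero]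
    exact h𝒦.summand T A ⟨r, i, h5⟩ hA

lemma full_tp (hR : IsReal ℚ R) (h𝒦 : IsTensorClass 𝒦) {T : C} (h : Full R 𝒦 T) (n : ℕ) :
    Full R 𝒦 (tp T n) := by
  have hT := (full_iff hR h𝒦 T).2 h
  induction n with
  | zero =>
    rw [← full_iff hR h𝒦]
    have h2 : rk R 𝒦 (𝟙_ C) = 1 := by
      apply le_antisymm
      · rw [← bt_unit R]
        exact rk_le_bt R h𝒦 _
      · rw [← bt_unit R]
        exact le_rk h𝒦.unit ⟨𝟙 _, 𝟙 _, Category.comp_id _⟩
    change 2 * (rk R 𝒦 (𝟙_ C) : ℤ) - bt R (𝟙_ C) = bt R (𝟙_ C)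
    rw [h2, bt_unit]
    norm_num
  | succ n ih =>
    rw [← full_iff hR h𝒦]
    change ind R 𝒦 (tp T n ⊗ T) = bt R (tp T n ⊗ T)
    rw [ind_full hR h𝒦 _ hT, (full_iff hR h𝒦 _).2 ih, bt_tensor]
    push_cast
    rfl

lemma abs_ind_of_not_full (hR : IsReal ℚ R) (h𝒦 : IsTensorClass 𝒦) {T : C}
    (h0 : 0 < rk R 𝒦 T) (h : ¬ Full R 𝒦 T) : |ind R 𝒦 T| ≤ (bt R T : ℤ) - 2 := by
  have h1 := rk_le_bt R h𝒦 T
  have h2 : rk R 𝒦 T ≠ bt R T := by
    intro h3
    apply h
    rw [← full_iff hR h𝒦]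
    unfold ind
    rw [h3]
    ring
  unfold ind
  rw [abs_le]
  constructor <;> omega

theorem powerLaw (hR : IsReal ℚ R) (h𝒦 : IsTensorClass 𝒦) {T : C} (hb : 0 < bt R T) :
    PowerLaw R 𝒦 T where
  dich := dichotomy hR h𝒦 hb
  bound := pow_bound hR h𝒦 T
  bound' h := pow_bound' hR h𝒦 h
  crit h0 := by
    have hb' : (0 : ℤ) < bt R T := by exact_mod_cast hb
    tfae_have 1 → 2 := full_tp hR h𝒦
    tfae_have 2 → 3 := by
      intro h
      refine ⟨0, ?_⟩
      have h1 := (full_iff hR h𝒦 _).2 (h 1)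
      unfold ind at h1
      rw [bt_tp'] at h1
      push_cast at h1
      rw [zero_add, pow_one, pow_zero]
      rw [pow_one] at h1
      omega
    tfae_have 3 → 1 := by
      rintro ⟨n, hn⟩
      by_contra hcon
      have h1 := abs_ind_of_not_full hR h𝒦 h0 hcon
      have h2 := pow_bound hR h𝒦 T n
      have h3 : |ind R 𝒦 T| * (bt R T : ℤ) ^ n ≤ ((bt R T : ℤ) - 2) * (bt R T : ℤ) ^ n :=
        mul_le_mul_of_nonneg_right h1 (by positivity)
      have h4 : bt R T ^ n ≤ bt R T ^ (n + 1) := Nat.pow_le_pow_right hb (Nat.le_succ n)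
      have h5 : (bt R T : ℤ) ^ (n + 1) - (bt R T : ℤ) ^ n < rk R 𝒦 (tp T (n + 1)) := by
        have h6 : ((bt R T ^ (n + 1) - bt R T ^ n : ℕ) : ℤ) < rk R 𝒦 (tp T (n + 1)) := by
          exact_mod_cast hn
        rw [Nat.cast_sub h4] at h6
        push_cast at h6
        exact h6
      unfold ind at h2
      rw [bt_tp'] at h2
      push_cast at h2
      rw [pow_succ] at h2 h5
      unfold ind at h3
      nlinarith
    tfae_have 2 → 4 := by
      intro h hhalf
      obtain ⟨n₀, hn₀⟩ := hhalf (1 / 4) (by norm_num)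
      have h1 := hn₀ n₀ le_rfl
      have h2 := (full_iff hR h𝒦 _).2 (h n₀)
      unfold ind at h2
      rw [bt_tp'] at h2
      have h3 : rk R 𝒦 (tp T n₀) = bt R T ^ n₀ := by omega
      rw [h3] at h1
      push_cast at h1
      have h4 : (0 : ℝ) < (bt R T : ℝ) ^ n₀ := by
        have : (0 : ℝ) < bt R T := by exact_mod_cast hb
        positivity
      linarith
    tfae_have 4 → 1 := by
      intro h
      by_contra hcon
      apply h
      refine half_of_not_full hR h𝒦 hb fun N hN hfull => ?_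
      obtain ⟨n, rfl⟩ := Nat.exists_eq_add_of_le' hN
      have h1 := abs_ind_of_not_full hR h𝒦 h0 hcon
      have h2 := pow_bound hR h𝒦 T n
      have h3 : |ind R 𝒦 T| * (bt R T : ℤ) ^ n ≤ ((bt R T : ℤ) - 2) * (bt R T : ℤ) ^ n :=
        mul_le_mul_of_nonneg_right h1 (by positivity)
      rw [(full_iff hR h𝒦 _).2 hfull, bt_tp'] at h2
      push_cast at h2
      have h4 : (0 : ℤ) < (bt R T : ℤ) ^ n := by positivity
      rw [pow_succ] at h2
      nlinarith
    tfae_finish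

end

end Pool.Agent.Zk50.KF
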