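import Pool.Agent.Zk50.KF.Fit

/-!
# The index of an object with respect to a tensor class of Kimura finite objects
-/

set_option autoImplicit false
set_option linter.unusedSectionVars false
set_option backward.isDefEq.respectTransparency false
set_option backward.defeqAttrib.useBackward true

open CategoryTheory Limits MonoidalCategory Module
open Pool.Agent.Y112.SR Pool.Agent.Y112.KD Pool.Agent.R905 Pool.Agent.N64.AF
open Pool.Agent.Zk51.KT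
open Pool.Agent.TH829.Kim (InRad)

namespace Pool.Agent.Zk50.KF

universe v u w

section

variable {C : Type u} [Category.{v} C] [Preadditive C] [MonoidalCategory C]
  [MonoidalPreadditive C] [SymmetricCategory C] [RightRigidCategory C]
  [Linear ℚ C] [MonoidalLinear ℚ C] [IsIdempotentComplete C]

/-- A class of Kimura finite objects which contains the unit object and is closed under direct
summands, finite direct sums, tensor products and duals. -/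
structure IsTensorClass (𝒦 : C → Prop) : Prop where
  kimura : ∀ A, 𝒦 A → IsKimuraFinite A
  unit : 𝒦 (𝟙_ C)
  summand : ∀ A B, IsSummand A B → 𝒦 B → 𝒦 A
  sum : ∀ T A B, IsSumOf T A B → 𝒦 A → 𝒦 B → 𝒦 T
  tensor : ∀ A B, 𝒦 A → 𝒦 B → 𝒦 (A ⊗ B)
  dual : ∀ A, 𝒦 A → 𝒦 (Aᘁ)

variable {K : Type w} [Field K]

/-- The rank of the largest direct summand of `T` in the class `𝒦`. -/
noncomputable def rk (R : SuperRealisation C K) (𝒦 : C → Prop) (T : C) : ℕ :=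
  sSup {m | ∃ A, 𝒦 A ∧ IsSummand A T ∧ bt R A = m}

/-- The index: the rank of the largest direct summand in the class `𝒦` minus the rank of its
complement. -/
noncomputable def ind (R : SuperRealisation C K) (𝒦 : C → Prop) (T : C) : ℤ :=
  2 * (rk R 𝒦 T : ℤ) - bt R T

/-- All composites `A ⟶ N ⟶ A` with `A` in `𝒦` have trace zero. -/
def Perp (hU : UnitQ C) (𝒦 : C → Prop) (N : C) : Prop :=
  ∀ A, 𝒦 A → ∀ (f : A ⟶ N) (g : N ⟶ A), trq hU A (f ≫ g) = 0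

end

section

variable {C : Type u} [Category.{v} C] [Preadditive C] [MonoidalCategory C]
  [SymmetricCategory C] {K : Type w} [Field K] (R : SuperRealisation C K)

lemma bt_le_of_factor {B X Y : C} (a : B ⟶ X) (a' : X ⟶ B) (b : B ⟶ Y) (b' : Y ⟶ B)
    (u' : B ⟶ B) (h : (a ≫ a' + b ≫ b') ≫ u' = 𝟙 B) : bt R B ≤ bt R X + bt R Y := by
  have hX := R.finite X
  have hY := R.finite Y
  unfold bt
  rw [← Module.finrank_prod]
  refine LinearMap.finrank_le_finrank_of_injective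
    (f := (R.H.map a).hom.prod (R.H.map b).hom) ?_
  rw [injective_iff_map_eq_zero]
  intro x hx
  have h1 : (R.H.map a).hom x = 0 := congrArg Prod.fst hx
  have h2 : (R.H.map b).hom x = 0 := congrArg Prod.snd hx
  have h3 := congrArg (fun f => (R.H.map f).hom x) h
  simp only [Functor.map_comp, Functor.map_add, CategoryTheory.Functor.map_id, ModuleCat.hom_comp,
    ModuleCat.hom_add, LinearMap.comp_apply, LinearMap.add_apply, h1, h2, map_zero, add_zero,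
    ModuleCat.hom_id, LinearMap.id_apply] at h3
  exact h3.symm

lemma bt_summand {A T : C} (h : IsSummand A T) : bt R A ≤ bt R T := by
  obtain ⟨i, r, h1⟩ := h
  have hT := R.finite T
  unfold bt
  refine LinearMap.finrank_le_finrank_of_injective (f := (R.H.map i).hom) ?_
  rw [injective_iff_map_eq_zero]
  intro x hx
  have h3 := congrArg (fun f => (R.H.map f).hom x) h1
  simp only [Functor.map_comp, CategoryTheory.Functor.map_id, ModuleCat.hom_comp,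
    LinearMap.comp_apply, hx, map_zero, ModuleCat.hom_id, LinearMap.id_apply] at h3
  exact h3.symm

lemma bt_sumOf {T A B : C} (h : IsSumOf T A B) : bt R T = bt R A + bt R B := by
  have hA := R.finite A
  have hB := R.finite B
  have hT := R.finite T
  obtain ⟨i, r, i', r', h1, h2, h3⟩ := h
  apply le_antisymm
  · exact bt_le_of_factor R r i r' i' (𝟙 T) (by rw [h3, Category.comp_id])
  · have h4 : i ≫ r' = 0 ∧ i' ≫ r = 0 := by
      have e1 : i ≫ (r ≫ i + r' ≫ i') ≫ r' = i ≫ r' := by rw [h3, Category.id_comp]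
      have e2 : i' ≫ (r ≫ i + r' ≫ i') ≫ r = i' ≫ r := by rw [h3, Category.id_comp]
      rw [Preadditive.add_comp, Preadditive.comp_add] at e1 e2
      simp only [Category.assoc] at e1 e2
      rw [reassoc_of% h1, h2, Category.comp_id] at e1
      rw [h1, reassoc_of% h2, Category.comp_id] at e2
      exact ⟨by simpa using e1, by simpa using e2⟩
    unfold bt
    rw [← Module.finrank_prod]
    refine LinearMap.finrank_le_finrank_of_injective
      (f := (R.H.map i).hom.coprod (R.H.map i').hom) ?_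
    rw [injective_iff_map_eq_zero]
    rintro ⟨x, y⟩ hxy
    rw [LinearMap.coprod_apply] at hxy
    have k1 : (R.H.map r).hom ((R.H.map i).hom x) = x := by
      have h5 := congrArg (fun f => (R.H.map f).hom x) h1
      simpa only [Functor.map_comp, CategoryTheory.Functor.map_id, ModuleCat.hom_comp,
        LinearMap.comp_apply, ModuleCat.hom_id, LinearMap.id_apply] using h5
    have k2 : (R.H.map r').hom ((R.H.map i').hom y) = y := by
      have h5 := congrArg (fun f => (R.H.map f).hom y) h2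
      simpa only [Functor.map_comp, CategoryTheory.Functor.map_id, ModuleCat.hom_comp,
        LinearMap.comp_apply, ModuleCat.hom_id, LinearMap.id_apply] using h5
    have k3 : (R.H.map r').hom ((R.H.map i).hom x) = 0 := by
      have h5 := congrArg (fun f => (R.H.map f).hom x) h4.1
      simpa only [Functor.map_comp, Functor.map_zero, ModuleCat.hom_comp,
        LinearMap.comp_apply, ModuleCat.hom_zero, LinearMap.zero_apply] using h5
    have k4 : (R.H.map r).hom ((R.H.map i').hom y) = 0 := by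
      have h5 := congrArg (fun f => (R.H.map f).hom y) h4.2
      simpa only [Functor.map_comp, Functor.map_zero, ModuleCat.hom_comp,
        LinearMap.comp_apply, ModuleCat.hom_zero, LinearMap.zero_apply] using h5
    have l1 := congrArg (R.H.map r).hom hxy
    have l2 := congrArg (R.H.map r').hom hxy
    simp only [map_add, map_zero, k1, k2, k3, k4, add_zero, zero_add] at l1 l2
    rw [l1, l2]
    rfl

end

lemma summand_trans {C : Type u} [Category.{v} C] {A B T : C} (h1 : IsSummand A B)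
    (h2 : IsSummand B T) : IsSummand A T := by
  obtain ⟨i, r, h⟩ := h1
  obtain ⟨j, q, k⟩ := h2
  exact ⟨i ≫ j, q ≫ r, by rw [Category.assoc, reassoc_of% k, h]⟩

lemma summand_left {C : Type u} [Category.{v} C] [Preadditive C] {A B T : C}
    (h : IsSumOf T A B) : IsSummand A T := by
  obtain ⟨i, r, -, -, h1, -, -⟩ := h
  exact ⟨i, r, h1⟩

lemma summand_right {C : Type u} [Category.{v} C] [Preadditive C] {A B T : C}
    (h : IsSumOf T A B) : IsSummand B T := by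
  obtain ⟨-, -, i, r, -, h1, -⟩ := h
  exact ⟨i, r, h1⟩

lemma id_zero {C : Type u} [Category.{v} C] [Preadditive C] {Z T : C} {i : Z ⟶ T} {r : T ⟶ Z}
    (h1 : i ≫ r = 𝟙 Z) (h2 : r ≫ i = 0) : 𝟙 Z = 0 := by
  calc 𝟙 Z = (i ≫ r) ≫ (i ≫ r) := by rw [h1, Category.id_comp]
    _ = i ≫ (r ≫ i) ≫ r := by simp only [Category.assoc]
    _ = 0 := by rw [h2, zero_comp, comp_zero]

/-- Two orthogonal summands have a sum. -/
lemma exists_join {C : Type u} [Category.{v} C] [Preadditive C] [IsIdempotentComplete C]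
    {T A B : C} (i : A ⟶ T) (r : T ⟶ A) (i' : B ⟶ T) (r' : T ⟶ B) (h1 : i ≫ r = 𝟙 A)
    (h2 : i' ≫ r' = 𝟙 B) (h3 : i ≫ r' = 0) (h4 : i' ≫ r = 0) :
    ∃ (M Z : C) (m : M ⟶ T) (s : T ⟶ M) (z : Z ⟶ T) (t : T ⟶ Z), m ≫ s = 𝟙 M ∧
      z ≫ t = 𝟙 Z ∧ s ≫ m + t ≫ z = 𝟙 T ∧ t ≫ z = 𝟙 T - (r ≫ i + r' ≫ i') ∧
      IsSumOf M A B := by
  have he : (r ≫ i + r' ≫ i') ≫ (r ≫ i + r' ≫ i') = r ≫ i + r' ≫ i' := by
    simp only [Preadditive.add_comp, Preadditive.comp_add, Category.assoc, reassoc_of% h1,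
      reassoc_of% h2, reassoc_of% h3, reassoc_of% h4, zero_comp, comp_zero]
    simp
  have he' : (𝟙 T - (r ≫ i + r' ≫ i')) ≫ (𝟙 T - (r ≫ i + r' ≫ i')) =
      𝟙 T - (r ≫ i + r' ≫ i') := by
    rw [Preadditive.sub_comp, Preadditive.comp_sub, Preadditive.comp_sub, he]
    simp
  obtain ⟨M, m, s, k1, k2⟩ := IsIdempotentComplete.idempotents_split T _ he
  obtain ⟨Z, z, t, l1, l2⟩ := IsIdempotentComplete.idempotents_split T _ he'
  refine ⟨M, Z, m, s, z, t, k1, l1, by rw [k2, l2]; abel, l2, i ≫ s, m ≫ r, i' ≫ s, m ≫ r',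
    ?_, ?_, ?_⟩
  · rw [Category.assoc, ← Category.assoc s, k2]
    simp only [Preadditive.add_comp, Preadditive.comp_add, Category.assoc, h1,
      reassoc_of% h3, zero_comp, add_zero, Category.comp_id]
  · rw [Category.assoc, ← Category.assoc s, k2]
    simp only [Preadditive.add_comp, Preadditive.comp_add, Category.assoc, h2,
      reassoc_of% h4, zero_comp, zero_add, Category.comp_id]
  · have e1 : (m ≫ r) ≫ i ≫ s + (m ≫ r') ≫ i' ≫ s = m ≫ (r ≫ i + r' ≫ i') ≫ s := by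
      simp only [Preadditive.add_comp, Preadditive.comp_add, Category.assoc]
    rw [e1, ← k2]
    simp only [Category.assoc, k1, Category.comp_id]

section

variable {C : Type u} [Category.{v} C] [Preadditive C] [MonoidalCategory C]
  [MonoidalPreadditive C] [SymmetricCategory C] [RightRigidCategory C]
  [Linear ℚ C] [MonoidalLinear ℚ C] [IsIdempotentComplete C]
  {K : Type w} [Field K] [Algebra ℚ K] {R : SuperRealisation C K} {𝒦 : C → Prop}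

lemma perp_summand {hU : UnitQ C} {N N' : C} (h : Perp hU 𝒦 N) (h' : IsSummand N' N) :
    Perp hU 𝒦 N' := by
  intro A hA f g
  obtain ⟨i, r, h1⟩ := h'
  have h2 := h A hA (f ≫ i) (r ≫ g)
  rwa [Category.assoc, reassoc_of% h1] at h2

/-- Orthogonality in terms of summands. -/
lemma perp_iff (hR : IsReal ℚ R) (h𝒦 : IsTensorClass 𝒦) (N : C) :
    Perp (unitQ_of_real hR) 𝒦 N ↔ ∀ B, 𝒦 B → IsSummand B N → bt R B = 0 := by
  have hc := R_charZero R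
  constructor
  · rintro h B hB ⟨i, r, h1⟩
    obtain ⟨g, hg⟩ := (cplus_iff R B).1 ((h𝒦.kimura B hB).cplus R)
    have h2 := h B hB (g ≫ i) r
    rw [Category.assoc, h1, Category.comp_id] at h2
    have h3 := real_tr R (unitQ_of_real hR) g
    have h0 := R.finite B
    rw [h2, hg, R.par_sq, ModuleCat.hom_id, LinearMap.trace_id] at h3
    have h4 : (Module.finrank K (R.H.obj B) : K) = 0 := by
      rw [← h3]
      simp
    exact_mod_cast h4
  · intro h A hA f g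
    by_contra hne
    obtain ⟨B, h1, h2, h3⟩ := split_of_tr hR (h𝒦.kimura A hA) f g hne
    have h4 := h B (h𝒦.summand B A h1 hA) h2
    omega

lemma rk_bdd (R : SuperRealisation C K) (𝒦 : C → Prop) (T : C) :
    BddAbove {m | ∃ A, 𝒦 A ∧ IsSummand A T ∧ bt R A = m} :=
  ⟨bt R T, by rintro _ ⟨A, -, h, rfl⟩; exact bt_summand R h⟩

lemma le_rk {A T : C} (hA : 𝒦 A) (h : IsSummand A T) : bt R A ≤ rk R 𝒦 T :=
  le_csSup (rk_bdd R 𝒦 T) ⟨A, hA, h, rfl⟩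

lemma rk_le (R : SuperRealisation C K) (h𝒦 : IsTensorClass 𝒦) (T : C) {m : ℕ}
    (h : ∀ A, 𝒦 A → IsSummand A T → bt R A ≤ m) : rk R 𝒦 T ≤ m := by
  refine csSup_le ?_ ?_
  · obtain ⟨Z, i, r, h1, h2⟩ := IsIdempotentComplete.idempotents_split T (0 : T ⟶ T) (by simp)
    have h3 : 𝟙 Z = 0 := id_zero h1 h2
    exact ⟨_, Z, h𝒦.summand Z _ ⟨(0 : Z ⟶ 𝟙_ C), 0, by rw [h3]; simp⟩ h𝒦.unit,
      ⟨i, r, h1⟩, rfl⟩
  · rintro _ ⟨A, hA, hs, rfl⟩
    exact h A hA hs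

/-- A sum with an orthogonal summand. -/
lemma summand_of_perp (hR : IsReal ℚ R) (h𝒦 : IsTensorClass 𝒦) {T N N' B : C}
    (h : IsSumOf T N N') (hN : Perp (unitQ_of_real hR) 𝒦 N) (hB : 𝒦 B) (hs : IsSummand B T) :
    IsSummand B N' := by
  obtain ⟨i, r, i', r', h1, h2, h3⟩ := h
  obtain ⟨j, q, hjq⟩ := hs
  have hsum : (j ≫ r) ≫ i ≫ q + (j ≫ r') ≫ i' ≫ q = 𝟙 B := by
    have e1 : (j ≫ r) ≫ i ≫ q + (j ≫ r') ≫ i' ≫ q = j ≫ (r ≫ i + r' ≫ i') ≫ q := by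
      simp only [Preadditive.add_comp, Preadditive.comp_add, Category.assoc]
    rw [e1, h3, Category.id_comp, hjq]
  have hrad : InRad (trq (unitQ_of_real hR) B) (en ((j ≫ r) ≫ i ≫ q)) := by
    intro γ
    rw [End.mul_def, trq_comm' R (unitQ_of_real hR)]
    have h4 := hN B hB (j ≫ r) ((i ≫ q) ≫ (γ : B ⟶ B))
    rw [← Category.assoc] at h4
    exact h4
  have hnil := nil_of_inRad R (unitQ_of_real hR) (h𝒦.kimura B hB) hrad
  have hunit := hnil.isUnit_one_sub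
  obtain ⟨U, hU⟩ := hunit
  have h5 : (1 : End B) - en ((j ≫ r) ≫ i ≫ q) = en ((j ≫ r') ≫ i' ≫ q) := by
    have h6 : (1 : End B) = en ((j ≫ r) ≫ i ≫ q) + en ((j ≫ r') ≫ i' ≫ q) := hsum.symm
    rw [h6]
    exact add_sub_cancel_left _ _
  have h6 := U.inv_mul
  rw [hU, h5, End.mul_def] at h6
  refine ⟨j ≫ r', (i' ≫ q) ≫ ((U⁻¹ : (End B)ˣ) : End B), ?_⟩
  rw [← Category.assoc]
  exact h6

/-- The rank of the part in `𝒦` from a decomposition. -/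
lemma rk_eq (hR : IsReal ℚ R) (h𝒦 : IsTensorClass 𝒦) {T A Z : C} (h : IsSumOf T A Z)
    (hA : 𝒦 A) (hZ : Perp (unitQ_of_real hR) 𝒦 Z) : rk R 𝒦 T = bt R A := by
  apply le_antisymm
  · refine rk_le R h𝒦 T fun B hB hs => bt_summand R ?_
    refine summand_of_perp hR h𝒦 (N := Z) (N' := A) ?_ hZ hB hs
    obtain ⟨i, r, i', r', h1, h2, h3⟩ := h
    exact ⟨i', r', i, r, h2, h1, by rw [add_comm]; exact h3⟩
  · exact le_rk hA (summand_left h)

/-- The decomposition into the largest summand in `𝒦` and its complement. -/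
lemma exists_dec (hR : IsReal ℚ R) (h𝒦 : IsTensorClass 𝒦) (T : C) :
    ∃ A Z, 𝒦 A ∧ IsSumOf T A Z ∧ Perp (unitQ_of_real hR) 𝒦 Z := by
  have hne : {m | ∃ A, 𝒦 A ∧ IsSummand A T ∧ bt R A = m}.Nonempty := by
    by_contra hcon
    rw [Set.not_nonempty_iff_eq_empty] at hcon
    obtain ⟨Z, i, r, h1, h2⟩ := IsIdempotentComplete.idempotents_split T (0 : T ⟶ T) (by simp)
    have h3 : 𝟙 Z = 0 := id_zero h1 h2
    have h4 : bt R Z ∈ {m | ∃ A, 𝒦 A ∧ IsSummand A T ∧ bt R A = m} :=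
      ⟨Z, h𝒦.summand Z _ ⟨(0 : Z ⟶ 𝟙_ C), 0, by rw [h3]; simp⟩ h𝒦.unit, ⟨i, r, h1⟩, rfl⟩
    rw [hcon] at h4
    exact h4
  obtain ⟨A, hA, ⟨i, r, h1⟩, hmax⟩ := Nat.sSup_mem hne (rk_bdd R 𝒦 T)
  have he : (𝟙 T - r ≫ i) ≫ (𝟙 T - r ≫ i) = 𝟙 T - r ≫ i := by
    rw [Preadditive.sub_comp, Preadditive.comp_sub, Preadditive.comp_sub]
    simp only [Category.id_comp, Category.comp_id, Category.assoc, reassoc_of% h1]
    abel
  obtain ⟨Z, i', r', h2, h3⟩ := IsIdempotentComplete.idempotents_split T _ he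
  have h4 : r ≫ i + r' ≫ i' = 𝟙 T := by rw [h3]; abel
  refine ⟨A, Z, hA, ⟨i, r, i', r', h1, h2, h4⟩, ?_⟩
  rw [perp_iff hR h𝒦]
  rintro B hB ⟨j, q, hjq⟩
  obtain ⟨m1, m2⟩ := mixed h1 h2 h4
  obtain ⟨M, Z', m, s, z, t, k1, -, -, -, hM⟩ := exists_join i r (j ≫ i') (r' ≫ q) h1
    (by rw [Category.assoc, reassoc_of% h2, hjq]) (by rw [reassoc_of% m1, zero_comp])
    (by rw [Category.assoc, m2, comp_zero])
  have h5 : bt R M ≤ rk R 𝒦 T := le_rk (h𝒦.sum M A B hM hA hB) ⟨m, s, k1⟩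
  rw [bt_sumOf R hM] at h5
  unfold rk at h5
  rw [← hmax] at h5
  omega

lemma perp_sum {hU : UnitQ C} {T N N' : C} (h : IsSumOf T N N') (hN : Perp hU 𝒦 N)
    (hN' : Perp hU 𝒦 N') : Perp hU 𝒦 T := by
  obtain ⟨i, r, i', r', h1, h2, h3⟩ := h
  intro A hA f g
  have e1 : f ≫ g = (f ≫ r) ≫ i ≫ g + (f ≫ r') ≫ i' ≫ g := by
    calc f ≫ g = f ≫ (r ≫ i + r' ≫ i') ≫ g := by rw [h3, Category.id_comp]
      _ = _ := by simp only [Preadditive.add_comp, Preadditive.comp_add, Category.assoc]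
  have e2 : trq hU A (f ≫ g) = trq hU A ((f ≫ r) ≫ i ≫ g) + trq hU A ((f ≫ r') ≫ i' ≫ g) := by
    rw [e1]
    exact map_add _ _ _
  rw [e2, hN A hA, hN' A hA, add_zero]

/-- Additivity of the rank of the part in `𝒦`. -/
theorem rk_sum (hR : IsReal ℚ R) (h𝒦 : IsTensorClass 𝒦) {T X Y : C} (h : IsSumOf T X Y) :
    rk R 𝒦 T = rk R 𝒦 X + rk R 𝒦 Y := by
  obtain ⟨A, Z, hA, hX, hZ⟩ := exists_dec hR h𝒦 X
  obtain ⟨A', Z', hA', hY, hZ'⟩ := exists_dec hR h𝒦 Y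
  rw [rk_eq hR h𝒦 hX hA hZ, rk_eq hR h𝒦 hY hA' hZ']
  obtain ⟨x, x', y, y', h1, h2, h3⟩ := h
  obtain ⟨a, a', c, c', h4, h5, h6⟩ := hX
  obtain ⟨b, b', d, d', h7, h8, h9⟩ := hY
  obtain ⟨m1, m2⟩ := mixed h1 h2 h3
  obtain ⟨M, W, m, s, z, t, k1, k2, k3, k4, hM⟩ := exists_join (a ≫ x) (x' ≫ a') (b ≫ y)
    (y' ≫ b') (by rw [Category.assoc, reassoc_of% h1, h4])
    (by rw [Category.assoc, reassoc_of% h2, h7]) (by rw [Category.assoc, reassoc_of% m1]; simp)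
    (by rw [Category.assoc, reassoc_of% m2]; simp)
  have hW : Perp (unitQ_of_real hR) 𝒦 W := by
    have e0 : t ≫ z = (x' ≫ c') ≫ c ≫ x + (y' ≫ d') ≫ d ≫ y := by
      have e1 : x' ≫ x = (x' ≫ a') ≫ a ≫ x + (x' ≫ c') ≫ c ≫ x := by
        calc x' ≫ x = x' ≫ (a' ≫ a + c' ≫ c) ≫ x := by rw [h6, Category.id_comp]
          _ = _ := by simp only [Preadditive.add_comp, Preadditive.comp_add, Category.assoc]
      have e2 : y' ≫ y = (y' ≫ b') ≫ b ≫ y + (y' ≫ d') ≫ d ≫ y := by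
        calc y' ≫ y = y' ≫ (b' ≫ b + d' ≫ d) ≫ y := by rw [h9, Category.id_comp]
          _ = _ := by simp only [Preadditive.add_comp, Preadditive.comp_add, Category.assoc]
      rw [k4, ← h3, e1, e2]
      abel
    intro B hB f g
    have e1 : f ≫ g = (f ≫ z ≫ x' ≫ c') ≫ (c ≫ x ≫ t ≫ g) +
        (f ≫ z ≫ y' ≫ d') ≫ (d ≫ y ≫ t ≫ g) := by
      calc f ≫ g = f ≫ ((z ≫ t) ≫ (z ≫ t)) ≫ g := by
            rw [k2, Category.id_comp, Category.id_comp]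
        _ = f ≫ z ≫ (t ≫ z) ≫ t ≫ g := by simp only [Category.assoc]
        _ = _ := by
            rw [e0]
            simp only [Preadditive.add_comp, Preadditive.comp_add, Category.assoc]
    have e2 : trq (unitQ_of_real hR) B (f ≫ g) =
        trq (unitQ_of_real hR) B ((f ≫ z ≫ x' ≫ c') ≫ (c ≫ x ≫ t ≫ g)) +
        trq (unitQ_of_real hR) B ((f ≫ z ≫ y' ≫ d') ≫ (d ≫ y ≫ t ≫ g)) := by
      rw [e1]
      exact map_add _ _ _
    rw [e2, hZ B hB, hZ' B hB, add_zero]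
  rw [rk_eq hR h𝒦 ⟨m, s, z, t, k1, k2, k3⟩ (h𝒦.sum M A A' hM hA hA') hW, bt_sumOf R hM]

lemma perp_tensor (hR : IsReal ℚ R) (h𝒦 : IsTensorClass 𝒦) {N A : C}
    (hN : Perp (unitQ_of_real hR) 𝒦 N) (hA : 𝒦 A) : Perp (unitQ_of_real hR) 𝒦 (N ⊗ A) := by
  have hU := unitQ_of_real hR
  intro B hB f g
  rw [trq_comm' R (unitQ_of_real hR), ← trq_ptr R (unitQ_of_real hR)]
  have h1 := hN (B ⊗ Aᘁ) (h𝒦.tensor _ _ hB (h𝒦.dual _ hA))
    (f ▷ Aᘁ ≫ (α_ N A Aᘁ).hom ≫ N ◁ ((β_ A Aᘁ).hom ≫ ε_ A Aᘁ) ≫ (ρ_ N).hom)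
    ((ρ_ N).inv ≫ N ◁ η_ A Aᘁ ≫ (α_ N A Aᘁ).inv ≫ g ▷ Aᘁ)
  rw [trq_comm' R (unitQ_of_real hR)] at h1
  have e1 : ptr (g ≫ f) = ((ρ_ N).inv ≫ N ◁ η_ A Aᘁ ≫ (α_ N A Aᘁ).inv ≫ g ▷ Aᘁ) ≫
      (f ▷ Aᘁ ≫ (α_ N A Aᘁ).hom ≫ N ◁ ((β_ A Aᘁ).hom ≫ ε_ A Aᘁ) ≫ (ρ_ N).hom) := by
    unfold ptr
    simp only [comp_whiskerRight, Category.assoc]
  rw [e1]
  exact h1

lemma perp_tensor' (hR : IsReal ℚ R) (h𝒦 : IsTensorClass 𝒦) {N A : C}
    (hN : Perp (unitQ_of_real hR) 𝒦 N) (hA : 𝒦 A) : Perp (unitQ_of_real hR) 𝒦 (A ⊗ N) :=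
  perp_summand (perp_tensor hR h𝒦 hN hA) ⟨(β_ A N).hom, (β_ A N).inv, by simp⟩

/-- The rank of the part in `𝒦` of a tensor product. -/
theorem rk_tensor_le (hR : IsReal ℚ R) (h𝒦 : IsTensorClass 𝒦) (X Y : C) :
    rk R 𝒦 (X ⊗ Y) ≤ rk R 𝒦 X * rk R 𝒦 Y +
      (bt R X - rk R 𝒦 X) * (bt R Y - rk R 𝒦 Y) := by
  obtain ⟨A, Z, hA, hX, hZ⟩ := exists_dec hR h𝒦 X
  obtain ⟨A', Z', hA', hY, hZ'⟩ := exists_dec hR h𝒦 Y
  have b1 := bt_sumOf R hX
  have b2 := bt_sumOf R hY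
  rw [rk_eq hR h𝒦 hX hA hZ, rk_eq hR h𝒦 hY hA' hZ', b1, b2, Nat.add_sub_cancel_left,
    Nat.add_sub_cancel_left, ← bt_tensor, ← bt_tensor]
  obtain ⟨a, a', c, c', h4, h5, h6⟩ := hX
  obtain ⟨b, b', d, d', h7, h8, h9⟩ := hY
  refine rk_le R h𝒦 _ ?_
  rintro B hB ⟨j, q, hjq⟩
  have hid : ((a' ⊗ₘ b') ≫ (a ⊗ₘ b) + (a' ⊗ₘ d') ≫ (a ⊗ₘ d)) +
      ((c' ⊗ₘ b') ≫ (c ⊗ₘ b) + (c' ⊗ₘ d') ≫ (c ⊗ₘ d)) = 𝟙 (X ⊗ Y) := by
    simp only [tensorHom_comp_tensorHom]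
    have t1 : ∀ f : X ⟶ X, (f ⊗ₘ (b' ≫ b)) + (f ⊗ₘ (d' ≫ d)) = f ⊗ₘ (𝟙 Y) := by
      intro f
      rw [← h9]
      simp only [MonoidalCategory.tensorHom_def, MonoidalPreadditive.whiskerLeft_add,
        Preadditive.comp_add]
    rw [t1, t1, ← id_tensorHom_id, ← h6]
    simp only [MonoidalCategory.tensorHom_def, MonoidalPreadditive.add_whiskerRight,
      Preadditive.add_comp]
  have hsum : ((j ≫ (a' ⊗ₘ b')) ≫ (a ⊗ₘ b) ≫ q + (j ≫ (c' ⊗ₘ d')) ≫ (c ⊗ₘ d) ≫ q) +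
      ((j ≫ (a' ⊗ₘ d')) ≫ (a ⊗ₘ d) ≫ q + (j ≫ (c' ⊗ₘ b')) ≫ (c ⊗ₘ b) ≫ q) = 𝟙 B := by
    calc _ = j ≫ (((a' ⊗ₘ b') ≫ (a ⊗ₘ b) + (a' ⊗ₘ d') ≫ (a ⊗ₘ d)) +
      ((c' ⊗ₘ b') ≫ (c ⊗ₘ b) + (c' ⊗ₘ d') ≫ (c ⊗ₘ d))) ≫ q := by
          simp only [Preadditive.add_comp, Preadditive.comp_add, Category.assoc]
          abel
      _ = 𝟙 B := by rw [hid, Category.id_comp, hjq]
  have hrad : InRad (trq (unitQ_of_real hR) B)
      (en ((j ≫ (a' ⊗ₘ d')) ≫ (a ⊗ₘ d) ≫ q) + en ((j ≫ (c' ⊗ₘ b')) ≫ (c ⊗ₘ b) ≫ q)) := by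
    refine InRad.add ?_ ?_
    · intro γ
      rw [End.mul_def, trq_comm' R (unitQ_of_real hR)]
      have h4 := perp_tensor' hR h𝒦 hZ' hA B hB (j ≫ (a' ⊗ₘ d')) (((a ⊗ₘ d) ≫ q) ≫ (γ : B ⟶ B))
      rw [← Category.assoc] at h4
      exact h4
    · intro γ
      rw [End.mul_def, trq_comm' R (unitQ_of_real hR)]
      have h4 := perp_tensor hR h𝒦 hZ hA' B hB (j ≫ (c' ⊗ₘ b')) (((c ⊗ₘ b) ≫ q) ≫ (γ : B ⟶ B))
      rw [← Category.assoc] at h4
      exact h4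
  have hnil := nil_of_inRad R (unitQ_of_real hR) (h𝒦.kimura B hB) hrad
  obtain ⟨U, hU⟩ := hnil.isUnit_one_sub
  have h5 : (1 : End B) - (en ((j ≫ (a' ⊗ₘ d')) ≫ (a ⊗ₘ d) ≫ q) +
      en ((j ≫ (c' ⊗ₘ b')) ≫ (c ⊗ₘ b) ≫ q)) =
      en ((j ≫ (a' ⊗ₘ b')) ≫ (a ⊗ₘ b) ≫ q + (j ≫ (c' ⊗ₘ d')) ≫ (c ⊗ₘ d) ≫ q) := by
    have h6 : (1 : End B) = en ((j ≫ (a' ⊗ₘ b')) ≫ (a ⊗ₘ b) ≫ q +
        (j ≫ (c' ⊗ₘ d')) ≫ (c ⊗ₘ d) ≫ q) + (en ((j ≫ (a' ⊗ₘ d')) ≫ (a ⊗ₘ d) ≫ q) +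
      en ((j ≫ (c' ⊗ₘ b')) ≫ (c ⊗ₘ b) ≫ q)) := hsum.symm
    rw [h6]
    exact add_sub_cancel_right _ _
  have h6 := U.inv_mul
  rw [hU, h5, End.mul_def] at h6
  exact bt_le_of_factor R _ _ _ _ _ h6

omit [IsIdempotentComplete C] in
lemma mate_add {X Y : C} (f g : X ⟶ Y) :
    rightAdjointMate (f + g) = rightAdjointMate f + rightAdjointMate g := by
  unfold rightAdjointMate
  simp only [MonoidalPreadditive.add_whiskerRight, MonoidalPreadditive.whiskerLeft_add,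
    Preadditive.add_comp, Preadditive.comp_add]

omit [IsIdempotentComplete C] in
lemma sum_dual {T A Z : C} (h : IsSumOf T A Z) : IsSumOf (Tᘁ) (Aᘁ) (Zᘁ) := by
  obtain ⟨i, r, i', r', h1, h2, h3⟩ := h
  refine ⟨rightAdjointMate r, rightAdjointMate i, rightAdjointMate r', rightAdjointMate i',
    ?_, ?_, ?_⟩
  · rw [← comp_rightAdjointMate, h1, rightAdjointMate_id]
  · rw [← comp_rightAdjointMate, h2, rightAdjointMate_id]
  · rw [← comp_rightAdjointMate, ← comp_rightAdjointMate, ← mate_add, h3, rightAdjointMate_id]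

/-- The dual has the same rank of the part in `𝒦`. -/
theorem rk_dual (hR : IsReal ℚ R) (h𝒦 : IsTensorClass 𝒦) (T : C) :
    rk R 𝒦 (Tᘁ) = rk R 𝒦 T := by
  obtain ⟨A, Z, hA, hT, hZ⟩ := exists_dec hR h𝒦 T
  rw [rk_eq hR h𝒦 hT hA hZ, rk_eq hR h𝒦 (sum_dual hT) (h𝒦.dual A hA) ?_, bt_dual]
  rw [perp_iff hR h𝒦]
  rintro B hB ⟨i, r, h1⟩
  have e : (Zᘁ)ᘁ ≅ Z :=
    letI : ExactPairing Zᘁ Z := BraidedCategory.exactPairing_swap Z Zᘁ
    rightDualIso (X := Zᘁ) (inferInstance) (inferInstance)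
  have h2 : IsSummand (Bᘁ) Z := by
    refine ⟨rightAdjointMate r ≫ e.hom, e.inv ≫ rightAdjointMate i, ?_⟩
    rw [Category.assoc, Iso.hom_inv_id_assoc, ← comp_rightAdjointMate, h1, rightAdjointMate_id]
  have h3 := (perp_iff hR h𝒦 Z).1 hZ (Bᘁ) (h𝒦.dual B hB) h2
  rwa [bt_dual] at h3

end

end Pool.Agent.Zk50.KF
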